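import Pool.Agent.Lib.helper33.SubTot

/-!
A cycle of length 200 with 12 pendant vertices at each of the vertices 0 and 52 and one pendant
vertex at vertex 26.  Contracting the last pendant edge increases the mean subtree order: the
pendant vertex makes subtrees through the short arc, which miss much of the long arc, more likely.
-/

open Finset
open Pool.Agent.Lib.helper33

namespace Pool.Agent.Results.MP_e83d06_co.ContractionIncreases

/-- The mean subtree order: the average number of vertices over all subgraphs that are trees. -/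
noncomputable def meanSubtreeOrder {V : Type*} (G : SimpleGraph V) : ℚ :=
  ((∑ᶠ H ∈ {H : G.Subgraph | H.coe.IsTree}, H.verts.ncard : ℕ) : ℚ) /
    ({H : G.Subgraph | H.coe.IsTree}.ncard : ℚ)

/-- Contraction of the edge `u v`: the vertex `v` is merged into `u`, loops are deleted and
parallel edges are merged. -/
def contract {V : Type*} (G : SimpleGraph V) (u v : V) : SimpleGraph {w : V // w ≠ v} where
  Adj a b := a ≠ b ∧ (G.Adj a b ∨ (a.1 = u ∧ G.Adj v b) ∨ (b.1 = u ∧ G.Adj v a))
  symm := ⟨fun _ _ h => ⟨h.1.symm, h.2.elim (fun h => Or.inl h.symm)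
    (fun h => Or.inr h.symm)⟩⟩
  loopless := ⟨fun _ h => h.1 rfl⟩

/-- Neighbour lists; `e` says whether the last pendant vertex is present. -/
def nb (e : Bool) (u : ℕ) : List ℕ :=
  if u = 0 then (List.range 12).map (· + 200) ++ [1, 199] else
  if u = 199 then [0, 198] else
  if u = 52 then (List.range 12).map (· + 212) ++ [53, 51] else
  if u = 26 then (if e then [224, 27, 25] else [27, 25]) else
  if u < 200 then [u + 1, u - 1] else if u < 212 then [0] else if u < 224 then [52] else [26]

/-- Neighbours other than the parent. -/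
def nbf (e : Bool) (u p : ℕ) : List (ℕ × ℕ) :=
  Bool.casesOn (SubAlg.bit (2 ^ 0 + 2 ^ 26 + 2 ^ 52 + (2 ^ 26 - 1) * 2 ^ 199) u)
    [(Nat.sub (Nat.add u u) p, u)] (((nb e u).filter (fun w => w != p)).map (fun w => (w, u)))

theorem spec1 : SubAlg.Spec 225 15 (nb true) (nbf true) := SubTot.spec_of (by decide +kernel)

theorem spec0 : SubAlg.Spec 224 15 (nb false) (nbf false) := SubTot.spec_of (by decide +kernel)

theorem rep0 : SubGraph.Rep (contract (SubTot.gOf spec1) 26 224) 224 (nb false)
    (fun w => (w.1 : ℕ)) := by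
  have hlt : ∀ w : {w : Fin 225 // w ≠ 224}, (w.1 : ℕ) < 224 := by
    intro w
    have h1 := w.1.2
    have h2 : (w.1 : ℕ) ≠ 224 := fun h => w.2 (Fin.ext h)
    omega
  have hchk : (List.range 224).all (fun a => decide ((∀ y ∈ nb true a, y = 224 ∨ y ∈ nb false a) ∧
      ∀ y ∈ nb false a, y ∈ nb true a)) = true := by decide +kernel
  refine ⟨fun a b h => Subtype.ext (Fin.ext h), hlt, fun i hi =>
    ⟨⟨⟨i, by omega⟩, fun h => by have := congrArg Fin.val h; simp at this; omega⟩, rfl⟩, ?_⟩
  intro a b
  obtain ⟨h1, h2⟩ := of_decide_eq_true (List.all_eq_true.mp hchk _ (List.mem_range.mpr (hlt a)))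
  have h3 : ∀ c : Fin 225, (SubTot.gOf spec1).Adj 224 c → c = 26 := by
    intro c hc
    have : (c : ℕ) ∈ [26] := hc
    exact Fin.ext (List.mem_singleton.mp this)
  constructor
  · rintro ⟨hne, h | h | h⟩
    · exact (h1 _ h).resolve_left (hlt b).ne
    · exact absurd (Subtype.ext (h.1.trans (h3 _ h.2).symm)) hne
    · exact absurd (Subtype.ext ((h3 _ h.2).trans h.1.symm)) hne
  · intro h
    have h4 : (SubTot.gOf spec1).Adj a b := h2 _ h
    exact ⟨fun hc => h4.ne (congrArg Subtype.val hc), Or.inl h4⟩

theorem tot1 : {H : (SubTot.gOf spec1).Subgraph | H.coe.IsTree}.ncard = 404962357865 ∧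
    ∑ᶠ H ∈ {H : (SubTot.gOf spec1).Subgraph | H.coe.IsTree}, H.verts.ncard =
      67419440996697 := by
  have h := SubTot.tree_total spec1 (SubTot.rep_gOf spec1) (fun _ _ => false) (2 ^ 470) 4000 450
    (by norm_num) (by norm_num) (by decide +kernel) (by decide +kernel) _ _ rfl rfl
  rw [h.1, h.2]
  decide +kernel

theorem tot0 : {H : (contract (SubTot.gOf spec1) 26 224).Subgraph | H.coe.IsTree}.ncard =
      208167645124 ∧
    ∑ᶠ H ∈ {H : (contract (SubTot.gOf spec1) 26 224).Subgraph | H.coe.IsTree}, H.verts.ncard =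
      34667539241484 := by
  have h := SubTot.tree_total spec0 rep0 (fun _ _ => false) (2 ^ 470) 4000 450
    (by norm_num) (by norm_num) (by decide +kernel) (by decide +kernel) _ _ rfl rfl
  rw [h.1, h.2]
  decide +kernel

/-- There are a finite connected graph and an edge whose contraction strictly increases the mean
subtree order. -/
theorem result : ∃ (n : ℕ) (G : SimpleGraph (Fin n)) (u v : Fin n), G.Connected ∧ G.Adj u v ∧
    meanSubtreeOrder G < meanSubtreeOrder (contract G u v) := by
  refine ⟨225, SubTot.gOf spec1, 26, 224, SubTot.conn_gOf spec1 (by norm_num) (by decide +kernel),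
    show (224 : ℕ) ∈ nb true 26 by decide, ?_⟩
  unfold meanSubtreeOrder
  rw [tot1.1, tot1.2, tot0.1, tot0.2]
  norm_num

end Pool.Agent.Results.MP_e83d06_co.ContractionIncreases
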